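import Pool.Agent.Helper793.MinTT.Final
import Pool.Agent.Helper793.MinTT.Gen

set_option autoImplicit false

namespace Pool.Agent.Results.MP_f3446c_co.FourVertex

open Pool.Helper793.MinTT

/-- The least number `F n 4` of transitive `4`-vertex subtournaments of an `n`-tournament:
lower bounds in all residue classes mod `4` with the equality cases, upper bounds next to
the orders of doubly regular tournaments, and exact values; and a lower bound for `F n k` for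
every `k`. -/
theorem result :
    -- (a) lower bounds and equality cases
    (∀ n : ℕ, n % 4 = 3 → 7 ≤ n →
      (n * (n - 1) * (n - 3) * (n - 7) : ℤ) ≤ 64 * (F n 4 : ℤ) ∧
      (64 * (F n 4 : ℤ) = n * (n - 1) * (n - 3) * (n - 7) ↔
        ∃ T : Tour (Fin n), T.DoublyRegular)) ∧
    (∀ n : ℕ, n % 4 = 2 → 10 ≤ n →
      (n * (n - 2) * (n - 3) * (n - 6) : ℤ) ≤ 64 * (F n 4 : ℤ) ∧
      (64 * (F n 4 : ℤ) = n * (n - 2) * (n - 3) * (n - 6) ↔
        ∃ T : Tour (Fin (n + 1)), T.DoublyRegular)) ∧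
    (∀ n : ℕ, n % 4 = 1 → 9 ≤ n →
      (n * (n - 1) * (n - 5) ^ 2 : ℤ) ≤ 64 * (F n 4 : ℤ) ∧
      (64 * (F n 4 : ℤ) = n * (n - 1) * (n - 5) ^ 2 ↔
        ∃ T : Tour (Fin n), T.NearlyDoublyRegular (n / 4))) ∧
    (∀ n : ℕ, n % 4 = 0 → 8 ≤ n →
      (n * (n - 4) * (n ^ 2 - 7 * n + 8) : ℤ) + 64 ≤ 64 * (F n 4 : ℤ)) ∧
    -- (b) upper bounds next to the order `m` of a doubly regular tournament
    (∀ m : ℕ, m % 4 = 3 → 7 ≤ m → (∃ T : Tour (Fin m), T.DoublyRegular) →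
      64 * (F (m + 1) 4 : ℤ) ≤ (m + 1) * (m - 1) * (m - 3) * (m - 4) ∧
      64 * (F (m - 2) 4 : ℤ) ≤ (m - 3) * (m - 4) * (m - 5) * (m - 7)) ∧
    -- (c) exact values for infinitely many `n`
    (∀ q j m : ℕ, IsPrimePow q → q % 4 = 3 → 7 ≤ q → m = 2 ^ j * (q + 1) - 1 →
      (∃ T : Tour (Fin m), T.DoublyRegular) ∧
      64 * (F m 4 : ℤ) = m * (m - 1) * (m - 3) * (m - 7) ∧
      64 * (F (m - 1) 4 : ℤ) = (m - 1) * (m - 3) * (m - 4) * (m - 7)) ∧
    -- (d) further exact values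
    (F 8 4 = 9 ∧ F 9 4 = 18 ∧ F 13 4 = 156 ∧ F 17 4 = 612 ∧ F 21 4 = 1680 ∧
      F 25 4 = 3750 ∧ F 29 4 = 7308) ∧
    -- (e) a lower bound for every `k`
    (∀ n k : ℕ, 2 ^ (k - 1) ≤ n + 1 →
      ∏ i ∈ Finset.range k, (((n : ℝ) + 1 - 2 ^ i) / 2 ^ i) ≤ (F n k : ℝ)) := by
  refine ⟨fun n hn h7 => ⟨lower3 n hn, fun h => dr_of_exact3 hn h7 h, fun h => exact3 hn h7 h⟩,
    fun n hn h10 => ⟨lower2 n hn, fun h => dr_of_exact2 hn h10 h,
      fun h => exact2 hn (by omega) h⟩,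
    fun n hn h9 => ⟨lower1 n hn, exact1_iff hn h9⟩,
    fun n hn h8 => strict0 hn h8, ?_, ?_, ⟨F8, F9, F13, F17, F21, F25, F29⟩, ?_⟩
  · intro m hm h7 h
    constructor
    · have h1 := upper0 (n := m + 1) (by omega) (by omega) h
      push_cast at h1
      linarith
    · obtain ⟨n, rfl⟩ : ∃ n, m = n + 2 := ⟨m - 2, by omega⟩
      have h1 := upper1 (n := n) (by omega) (by omega) h
      have h2 : n + 2 - 2 = n := by omega
      rw [h2]
      push_cast
      linarith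
  · intro q j m hq hq4 hq7 hm
    have h1 := dr_family hq hq4 hq7 j
    rw [← hm] at h1
    have hpos : 1 ≤ 2 ^ j := Nat.one_le_two_pow
    have h8 : 8 ≤ 2 ^ j * (q + 1) := by nlinarith
    have h4 : 4 ∣ 2 ^ j * (q + 1) := Dvd.dvd.mul_left (by omega) _
    have hm4 : m % 4 = 3 := by omega
    have hm7 : 7 ≤ m := by omega
    refine ⟨h1, exact3 hm4 hm7 h1, ?_⟩
    obtain ⟨n, rfl⟩ : ∃ n, m = n + 1 := ⟨m - 1, by omega⟩
    have h2 := exact2 (n := n) (by omega) (by omega) h1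
    have h3 : n + 1 - 1 = n := by omega
    rw [h3, h2]
    push_cast
    ring
  · intro n k hk
    obtain ⟨T, hT⟩ := exists_F n k
    have h := T.prod_lower Finset.univ k (by rw [Finset.card_univ, Fintype.card_fin]; exact hk)
    rw [Finset.card_univ, Fintype.card_fin, ← T.tr_eq, hT] at h
    exact h

end Pool.Agent.Results.MP_f3446c_co.FourVertex
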